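import Mathlib
import Pool.Agent.R25.Rp.Main
import Pool.Agent.R25.Rp.Pos

/-!
# MP_33d24b_co: the pair (3, 8)

There are only finitely many `(3, 8)` recursively partitionable semistars, and there is at least
one. The definitions of `RP` (recursively partitionable) and `semistar` are in
`Pool/Agent/R25/Rp/Defs.lean`.
-/

namespace Pool.Agent.Results.MP_33d24b_co.ThreeEight

open Pool.Agent.R25.Rp

lemma lab_inl (b : Fin 8 → ℕ) (x : Fin 3) :
    (lab (Sum.inl x : Fin 3 ⊕ (Σ i : Fin 8, Fin (b i))) : Option (Fin 8)) = none := rfl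

lemma lab_inr (b : Fin 8 → ℕ) (p : Σ i : Fin 8, Fin (b i)) :
    (lab (Sum.inr p : Fin 3 ⊕ (Σ i : Fin 8, Fin (b i))) : Option (Fin 8)) = some p.1 := rfl

lemma prof_none (b : Fin 8 → ℕ) :
    prof (lab : (Fin 3 ⊕ (Σ i : Fin 8, Fin (b i))) → Option (Fin 8)) Finset.univ none = 3 := by
  unfold prof
  have : (Finset.univ.filter fun v : (Fin 3 ⊕ (Σ i : Fin 8, Fin (b i))) => lab v = none) =
      Finset.univ.image Sum.inl := by
    ext v
    rw [Finset.mem_filter, Finset.mem_image]
    rcases v with x | p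
    · rw [lab_inl]
      simp
    · rw [lab_inr]
      simp
  rw [this, Finset.card_image_of_injective _ Sum.inl_injective]
  simp

lemma prof_some (b : Fin 8 → ℕ) (i : Fin 8) :
    prof (lab : (Fin 3 ⊕ (Σ i : Fin 8, Fin (b i))) → Option (Fin 8)) Finset.univ (some i) =
      b i := by
  unfold prof
  have : (Finset.univ.filter fun v : (Fin 3 ⊕ (Σ i : Fin 8, Fin (b i))) => lab v = some i) =
      Finset.univ.image (fun x : Fin (b i) => Sum.inr ⟨i, x⟩) := by
    ext v
    rw [Finset.mem_filter, Finset.mem_image]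
    rcases v with x | ⟨j, x⟩
    · rw [lab_inl]
      simp
    · rw [lab_inr]
      constructor
      · rintro ⟨-, h⟩
        have hj : j = i := Option.some_injective _ h
        subst hj
        exact ⟨x, Finset.mem_univ _, rfl⟩
      · rintro ⟨y, -, hy⟩
        have h := Sum.inr_injective hy
        exact ⟨Finset.mem_univ _, congrArg some (congrArg Sigma.fst h).symm⟩
  rw [this, Finset.card_image_of_injective]
  · simp
  · intro x y hxy
    have := Sum.inr_injective hxy
    simpa using this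

lemma prof_eq (b : Fin 8 → ℕ) (o : Option (Fin 8)) :
    prof (lab : (Fin 3 ⊕ (Σ i : Fin 8, Fin (b i))) → Option (Fin 8)) Finset.univ o = mk 3 b o := by
  rcases o with _ | i
  · exact prof_none b
  · exact prof_some b i

theorem result :
    {b : Fin 8 → ℕ | (∀ i, 1 ≤ b i) ∧ Monotone b ∧ RP (semistar 3 b) Finset.univ}.Finite ∧
    {b : Fin 8 → ℕ | (∀ i, 1 ≤ b i) ∧ Monotone b ∧ RP (semistar 3 b) Finset.univ}.Nonempty := by
  constructor
  · apply Set.Finite.subset (Set.finite_Iic (fun _ : Fin 8 => 56))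
    rintro b ⟨hpos, -, hRP⟩
    have h1 : RPb (prof (lab : (Fin 3 ⊕ (Σ i : Fin 8, Fin (b i))) → Option (Fin 8))
        Finset.univ) := RPb_of_RP (fun x y => Iff.rfl) hRP
    have h2 : prof (lab : (Fin 3 ⊕ (Σ i : Fin 8, Fin (b i))) → Option (Fin 8)) Finset.univ =
        mk 3 b := funext (prof_eq b)
    rw [h2] at h1
    have h8 : nz (mk 3 b) = 8 := by
      rw [nz_mk, Finset.filter_true_of_mem (fun i _ => Nat.lt_of_succ_le (hpos i))]
      simp
    obtain ⟨l, hl, hbr⟩ := inT_of_RPb _ (mk 3 b) rfl h1 rfl h8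
    have h56 := (mem_Rl hl).2
    have hsum := sum_br (mk 3 b)
    rw [hbr, Multiset.sum_coe] at hsum
    intro i
    have h3 : b i ≤ ∑ i, mk 3 b (some i) :=
      Finset.single_le_sum (f := fun i => mk 3 b (some i)) (fun _ _ => Nat.zero_le _)
        (Finset.mem_univ i)
    show b i ≤ 56
    omega
  · refine ⟨![1, 1, 1, 2, 2, 3, 4, 6], by decide, by decide, ?_⟩
    exact RP_of_RPb (lb := lab) (fun x y => Iff.rfl) RPb_23 Finset.univ (prof_eq _)

end Pool.Agent.Results.MP_33d24b_co.ThreeEight
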